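import Pool.Agent.H110R3.Urn.Stmts

/-! Task E3 of project H110-URN (helper217): nondegeneracy of the equilibria for large `α`. -/

set_option autoImplicit false

namespace Pool.Agent.H217R3.UrnE3

open Pool.Agent.H110R3.Urn Finset

lemma rpow_exp {a : ℝ} (ha : 0 < a) (α : ℝ) : a ^ α = Real.exp (α * Real.log a) := by
  rw [Real.rpow_def_of_pos ha, mul_comm]

lemma ww_form {a b α : ℝ} (ha : 0 < a) (hb : 0 < b) :
    ww α a b = Real.exp (α * Real.log a) * Real.exp (α * Real.log b) /
      (Real.exp (α * Real.log a) + Real.exp (α * Real.log b)) ^ 2 := by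
  unfold ww pp
  rw [rpow_exp ha, rpow_exp hb]
  have h1 := Real.exp_pos (α * Real.log a)
  have h2 := Real.exp_pos (α * Real.log b)
  field_simp
  ring

lemma ww_symm {a b α : ℝ} (ha : 0 < a) (hb : 0 < b) : ww α a b = ww α b a := by
  rw [ww_form ha hb, ww_form hb ha]
  congr 1
  · ring
  · ring

lemma ww_nonneg {a b α : ℝ} (ha : 0 < a) (hb : 0 < b) : 0 ≤ ww α a b := by
  rw [ww_form ha hb]
  have h1 := Real.exp_pos (α * Real.log a)
  have h2 := Real.exp_pos (α * Real.log b)
  positivity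

lemma ww_lower {a b α K : ℝ} (ha : 0 < a) (hb : 0 < b)
    (h : |α * Real.log a - α * Real.log b| ≤ K) : Real.exp (-K) / 4 ≤ ww α a b := by
  rw [ww_form ha hb]
  set u := α * Real.log a
  set v := α * Real.log b
  have h1 := Real.exp_pos u
  have h2 := Real.exp_pos v
  rw [div_le_div_iff₀ (by norm_num) (by positivity)]
  rw [abs_le] at h
  rcases le_total u v with huv | huv
  · have h3 : Real.exp u ≤ Real.exp v := Real.exp_le_exp.2 huv
    have h4 : (Real.exp u + Real.exp v) ^ 2 ≤ 4 * (Real.exp v * Real.exp v) := by nlinarith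
    have h5 : Real.exp (-K) * (Real.exp v * Real.exp v) ≤ Real.exp u * Real.exp v := by
      rw [← Real.exp_add, ← Real.exp_add, ← Real.exp_add]
      apply Real.exp_le_exp.2; linarith
    nlinarith [Real.exp_pos (-K), mul_le_mul_of_nonneg_left h4 (Real.exp_pos (-K)).le]
  · have h3 : Real.exp v ≤ Real.exp u := Real.exp_le_exp.2 huv
    have h4 : (Real.exp u + Real.exp v) ^ 2 ≤ 4 * (Real.exp u * Real.exp u) := by nlinarith
    have h5 : Real.exp (-K) * (Real.exp u * Real.exp u) ≤ Real.exp u * Real.exp v := by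
      rw [← Real.exp_add, ← Real.exp_add, ← Real.exp_add]
      apply Real.exp_le_exp.2; linarith
    nlinarith [Real.exp_pos (-K), mul_le_mul_of_nonneg_left h4 (Real.exp_pos (-K)).le]

lemma ww_upper {a b α D : ℝ} (ha : 0 < a) (hb : 0 < b)
    (h : D ≤ |α * Real.log a - α * Real.log b|) : ww α a b ≤ Real.exp (-D) := by
  rw [ww_form ha hb]
  set u := α * Real.log a
  set v := α * Real.log b
  have h1 := Real.exp_pos u
  have h2 := Real.exp_pos v
  rw [div_le_iff₀ (by positivity)]
  rcases le_total u v with huv | huv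
  · rw [abs_of_nonpos (by linarith)] at h
    have h4 : Real.exp v * Real.exp v ≤ (Real.exp u + Real.exp v) ^ 2 := by nlinarith
    have h5 : Real.exp u * Real.exp v ≤ Real.exp (-D) * (Real.exp v * Real.exp v) := by
      rw [← Real.exp_add, ← Real.exp_add, ← Real.exp_add]
      apply Real.exp_le_exp.2; linarith
    exact h5.trans (mul_le_mul_of_nonneg_left h4 (Real.exp_pos _).le)
  · rw [abs_of_nonneg (by linarith)] at h
    have h4 : Real.exp u * Real.exp u ≤ (Real.exp u + Real.exp v) ^ 2 := by nlinarith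
    have h5 : Real.exp u * Real.exp v ≤ Real.exp (-D) * (Real.exp u * Real.exp u) := by
      rw [← Real.exp_add, ← Real.exp_add, ← Real.exp_add]
      apply Real.exp_le_exp.2; linarith
    exact h5.trans (mul_le_mul_of_nonneg_left h4 (Real.exp_pos _).le)

/-- a chain of sets with a repetition -/
lemma exists_level {m : ℕ} (L : ℕ → Finset (Fin m)) (hmono : ∀ k, L k ⊆ L (k + 1))
    (h0 : (L 0).Nonempty) : ∃ k < m, L (k + 1) = L k := by
  by_contra hcon
  push Not at hcon
  have h1 : ∀ k ≤ m, k + 1 ≤ (L k).card := by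
    intro k
    induction k with
    | zero => intro _; simpa using h0.card_pos
    | succ k ih =>
      intro hk
      have h2 := ih (by omega)
      have h3 : L k ⊂ L (k + 1) :=
        Finset.ssubset_iff_subset_ne.2 ⟨hmono k, (hcon k (by omega)).symm⟩
      have h4 := Finset.card_lt_card h3
      omega
  have h2 := h1 m le_rfl
  have h3 : (L m).card ≤ m := by
    have := Finset.card_le_univ (L m)
    simpa using this
  omega

theorem core {m : ℕ} (W : Fin m → Fin m → ℝ) (x y : Fin m → ℝ) (N α M δ e : ℝ) (i0 : Fin m)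
    (hN : 0 < N) (hα : 0 < α) (hM : 0 < M) (hδ : 0 < δ) (he : 0 ≤ e)
    (hx0 : ∀ i, 0 ≤ x i) (hx1 : ∑ i, x i = 1) (hxi : 1 / (8 * N) ≤ x i0)
    (hsym : ∀ i j, W i j = W j i) (hW0 : ∀ i j, 0 ≤ W i j)
    (hy : ∀ i, |y i| ≤ M) (hy0 : y i0 = M)
    (heq : ∀ i, N * (x i * y i) = α * ∑ j, W i j * (y i - y j))
    (hdich : ∀ i j, 2 * N ≤ α * W i j * δ ^ 2 ∨ W i j ≤ e)
    (hmδ : m * δ ≤ 1 / 2) (hsmall : 16 * (m : ℝ) ^ 2 * α * e < 1) : False := by
  have hS : ∀ F : Fin m → Fin m → ℝ, ∑ i, ∑ j, F i j = ∑ i, ∑ j, F j i := fun F => Finset.sum_comm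
  -- energy
  have hen : α / 2 * ∑ i, ∑ j, W i j * (y i - y j) ^ 2 = N * ∑ i, x i * y i ^ 2 := by
    have h1 : N * ∑ i, x i * y i ^ 2 = α * ∑ i, ∑ j, W i j * (y i - y j) * y i := by
      rw [Finset.mul_sum, Finset.mul_sum]
      refine Finset.sum_congr rfl fun i _ => ?_
      have := heq i
      calc N * (x i * y i ^ 2) = (N * (x i * y i)) * y i := by ring
        _ = (α * ∑ j, W i j * (y i - y j)) * y i := by rw [this]
        _ = α * ∑ j, W i j * (y i - y j) * y i := by
          rw [mul_assoc, Finset.sum_mul]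
    have h2 : ∑ i, ∑ j, W i j * (y i - y j) * y i = - ∑ i, ∑ j, W i j * (y i - y j) * y j := by
      rw [hS (fun i j => W i j * (y i - y j) * y i), ← Finset.sum_neg_distrib]
      refine Finset.sum_congr rfl fun i _ => ?_
      rw [← Finset.sum_neg_distrib]
      refine Finset.sum_congr rfl fun j _ => ?_
      rw [hsym j i]; ring
    have h3 : ∑ i, ∑ j, W i j * (y i - y j) ^ 2 =
        ∑ i, ∑ j, W i j * (y i - y j) * y i - ∑ i, ∑ j, W i j * (y i - y j) * y j := by
      rw [← Finset.sum_sub_distrib]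
      refine Finset.sum_congr rfl fun i _ => ?_
      rw [← Finset.sum_sub_distrib]
      refine Finset.sum_congr rfl fun j _ => ?_
      ring
    rw [h1, h3]
    have h4 : ∑ i, ∑ j, W i j * (y i - y j) * y j = - ∑ i, ∑ j, W i j * (y i - y j) * y i := by
      linarith
    rw [h4]
    ring
  have hupper : N * ∑ i, x i * y i ^ 2 ≤ N * M ^ 2 := by
    apply mul_le_mul_of_nonneg_left _ hN.le
    calc ∑ i, x i * y i ^ 2 ≤ ∑ i, x i * M ^ 2 := by
          apply Finset.sum_le_sum
          intro i _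
          apply mul_le_mul_of_nonneg_left _ (hx0 i)
          exact sq_le_sq' (by linarith [(abs_le.1 (hy i)).1]) (abs_le.1 (hy i)).2
      _ = M ^ 2 := by rw [← Finset.sum_mul, hx1, one_mul]
  have hterm : ∀ i j, α / 2 * (W i j * (y i - y j) ^ 2) ≤ N * M ^ 2 := by
    intro i j
    have h1 : W i j * (y i - y j) ^ 2 ≤ ∑ i, ∑ j, W i j * (y i - y j) ^ 2 := by
      refine le_trans ?_ (Finset.single_le_sum (f := fun i => ∑ j, W i j * (y i - y j) ^ 2)
        (fun i _ => Finset.sum_nonneg fun j _ => mul_nonneg (hW0 i j) (sq_nonneg _))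
        (Finset.mem_univ i))
      exact Finset.single_le_sum (f := fun j => W i j * (y i - y j) ^ 2)
        (fun j _ => mul_nonneg (hW0 i j) (sq_nonneg _)) (Finset.mem_univ j)
    calc α / 2 * (W i j * (y i - y j) ^ 2) ≤ α / 2 * ∑ i, ∑ j, W i j * (y i - y j) ^ 2 := by
          apply mul_le_mul_of_nonneg_left h1; positivity
      _ = N * ∑ i, x i * y i ^ 2 := hen
      _ ≤ _ := hupper
  -- strong pairs have close values
  have hstrong : ∀ i j, 2 * N ≤ α * W i j * δ ^ 2 → |y i - y j| ≤ δ * M := by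
    intro i j h
    apply abs_le_of_sq_le_sq _ (by positivity)
    have h1 := hterm i j
    have h2 : 2 * N * (y i - y j) ^ 2 ≤ α * W i j * δ ^ 2 * (y i - y j) ^ 2 :=
      mul_le_mul_of_nonneg_right h (sq_nonneg _)
    have h3 : α * W i j * δ ^ 2 * (y i - y j) ^ 2 ≤ 2 * N * M ^ 2 * δ ^ 2 := by
      have : α * W i j * δ ^ 2 * (y i - y j) ^ 2 =
          2 * δ ^ 2 * (α / 2 * (W i j * (y i - y j) ^ 2)) := by ring
      rw [this]
      have := mul_le_mul_of_nonneg_left h1 (show 0 ≤ 2 * δ ^ 2 by positivity)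
      linarith
    have h4 : 2 * N * (y i - y j) ^ 2 ≤ 2 * N * (δ * M) ^ 2 := by
      have : 2 * N * (δ * M) ^ 2 = 2 * N * M ^ 2 * δ ^ 2 := by ring
      linarith
    exact le_of_mul_le_mul_left h4 (by positivity)
  -- levels
  let L : ℕ → Finset (Fin m) := fun k => Finset.univ.filter fun i => M - k * (δ * M) ≤ y i
  have hmemL : ∀ k i, i ∈ L k ↔ M - k * (δ * M) ≤ y i := by
    intro k i; simp [L]
  have hδM : 0 < δ * M := by positivity
  obtain ⟨k, hk, hLk⟩ := exists_level L (by
    intro k i hi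
    rw [hmemL] at hi ⊢
    push_cast
    nlinarith) ⟨i0, by rw [hmemL]; simp [hy0]⟩
  set C := L k with hC
  have hi0C : i0 ∈ C := by
    rw [hC, hmemL, hy0]
    have : 0 ≤ (k : ℝ) * (δ * M) := by positivity
    linarith
  have hCpos : ∀ i ∈ C, 0 ≤ y i := by
    intro i hi
    rw [hC, hmemL] at hi
    have h1 : (k : ℝ) * δ ≤ 1 / 2 := by
      have : (k : ℝ) ≤ m := by exact_mod_cast hk.le
      nlinarith
    nlinarith
  have hcross : ∀ i ∈ C, ∀ j, j ∉ C → W i j ≤ e := by
    intro i hi j hj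
    rcases hdich i j with h | h
    · exfalso
      have h1 := hstrong i j h
      have h2 : j ∉ L (k + 1) := by rw [hLk]; exact hj
      rw [hmemL] at h2
      rw [hC, hmemL] at hi
      push Not at h2
      push_cast at h2
      have h3 := (abs_le.1 h1).2
      nlinarith
    · exact h
  -- sum of the equation over `C`
  have hsum : N * ∑ i ∈ C, x i * y i = α * ∑ i ∈ C, ∑ j ∈ Cᶜ, W i j * (y i - y j) := by
    have h1 : N * ∑ i ∈ C, x i * y i = α * ∑ i ∈ C, ∑ j, W i j * (y i - y j) := by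
      rw [Finset.mul_sum, Finset.mul_sum]
      exact Finset.sum_congr rfl fun i _ => heq i
    have h2 : ∑ i ∈ C, ∑ j, W i j * (y i - y j) =
        ∑ i ∈ C, ∑ j ∈ C, W i j * (y i - y j) + ∑ i ∈ C, ∑ j ∈ Cᶜ, W i j * (y i - y j) := by
      rw [← Finset.sum_add_distrib]
      refine Finset.sum_congr rfl fun i _ => ?_
      rw [Finset.sum_add_sum_compl]
    have h3 : ∑ i ∈ C, ∑ j ∈ C, W i j * (y i - y j) = 0 := by
      have h4 : ∑ i ∈ C, ∑ j ∈ C, W i j * (y i - y j) =
          - ∑ i ∈ C, ∑ j ∈ C, W i j * (y i - y j) := by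
        conv_lhs => rw [Finset.sum_comm]
        rw [← Finset.sum_neg_distrib]
        refine Finset.sum_congr rfl fun i _ => ?_
        rw [← Finset.sum_neg_distrib]
        refine Finset.sum_congr rfl fun j _ => ?_
        rw [hsym j i]; ring
      linarith
    rw [h1, h2, h3, zero_add]
  have hlow : M / 8 ≤ N * ∑ i ∈ C, x i * y i := by
    have h1 : x i0 * y i0 ≤ ∑ i ∈ C, x i * y i :=
      Finset.single_le_sum (f := fun i => x i * y i)
        (fun i hi => mul_nonneg (hx0 i) (hCpos i hi)) hi0C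
    have h2 : M / 8 = N * (1 / (8 * N) * M) := by field_simp
    rw [h2]
    apply mul_le_mul_of_nonneg_left _ hN.le
    refine le_trans ?_ h1
    rw [hy0]
    exact mul_le_mul_of_nonneg_right hxi hM.le
  have hup : ∑ i ∈ C, ∑ j ∈ Cᶜ, W i j * (y i - y j) ≤ (m : ℝ) * (m * (e * (2 * M))) := by
    have hcard : ∀ s : Finset (Fin m), (s.card : ℝ) ≤ m := by
      intro s
      have := Finset.card_le_univ s
      rw [Fintype.card_fin] at this
      exact_mod_cast this
    have hpos : 0 ≤ e * (2 * M) := by positivity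
    calc ∑ i ∈ C, ∑ j ∈ Cᶜ, W i j * (y i - y j) ≤ ∑ i ∈ C, ∑ j ∈ Cᶜ, e * (2 * M) := by
          apply Finset.sum_le_sum
          intro i hi
          apply Finset.sum_le_sum
          intro j hj
          rw [Finset.mem_compl] at hj
          have h1 := hcross i hi j hj
          have h2 : y i - y j ≤ 2 * M := by
            linarith [(abs_le.1 (hy i)).2, (abs_le.1 (hy j)).1]
          calc W i j * (y i - y j) ≤ W i j * (2 * M) := mul_le_mul_of_nonneg_left h2 (hW0 i j)
            _ ≤ e * (2 * M) := mul_le_mul_of_nonneg_right h1 (by positivity)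
      _ = (C.card : ℝ) * ((Cᶜ.card : ℝ) * (e * (2 * M))) := by
          simp only [Finset.sum_const, nsmul_eq_mul]
      _ ≤ (m : ℝ) * (m * (e * (2 * M))) := by
          apply mul_le_mul (hcard _) _ (mul_nonneg (Nat.cast_nonneg _) hpos) (Nat.cast_nonneg _)
          exact mul_le_mul_of_nonneg_right (hcard _) hpos
  rw [hsum] at hlow
  have h5 : M / 8 ≤ α * ((m : ℝ) * (m * (e * (2 * M)))) :=
    hlow.trans (mul_le_mul_of_nonneg_left hup hα.le)
  have h6 : M ≤ (16 * (m : ℝ) ^ 2 * α * e) * M := by nlinarith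
  nlinarith

theorem taskE3 : TaskE3 := by
  intro m G _ hNE K κ hK hκ
  set N : ℝ := (NE G : ℝ) with hNdef
  have hN : 0 < N := by rw [hNdef]; exact_mod_cast hNE
  refine ⟨1 + 32 * (m : ℝ) ^ 2 * N * Real.exp K + 32 * (m : ℝ) ^ 2 / κ ^ 2, ?_⟩
  intro α hα hE1 hE2 x hx y hy0 hyeq
  have hK0 := Real.exp_pos K
  have hA : 0 ≤ 32 * (m : ℝ) ^ 2 * N * Real.exp K := by positivity
  have hB : 0 ≤ 32 * (m : ℝ) ^ 2 / κ ^ 2 := by positivity
  have hα1 : 1 ≤ α := by linarith
  have hα0 : 0 < α := by linarith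
  have hx0 : ∀ i, 0 ≤ x i := hx.1.1
  have hx1 : ∑ i, x i = 1 := hx.1.2.1
  have hpos : ∀ i, x i ≠ 0 → 0 < x i := fun i h => lt_of_le_of_ne (hx0 i) (Ne.symm h)
  classical
  set W : Fin m → Fin m → ℝ := fun i j =>
    if G.Adj i j ∧ x i ≠ 0 ∧ x j ≠ 0 then ww α (x i) (x j) else 0 with hW
  have hsym : ∀ i j, W i j = W j i := by
    intro i j
    simp only [hW]
    by_cases h : G.Adj i j ∧ x i ≠ 0 ∧ x j ≠ 0
    · rw [if_pos h, if_pos ⟨h.1.symm, h.2.2, h.2.1⟩]
      exact ww_symm (hpos i h.2.1) (hpos j h.2.2)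
    · rw [if_neg h, if_neg (fun h' => h ⟨h'.1.symm, h'.2.2, h'.2.1⟩)]
  have hW0 : ∀ i j, 0 ≤ W i j := by
    intro i j
    simp only [hW]
    split_ifs with h
    · exact ww_nonneg (hpos i h.2.1) (hpos j h.2.2)
    · exact le_rfl
  set δ : ℝ := Real.sqrt (8 * N * Real.exp K / α) with hδdef
  have hδ : 0 < δ := Real.sqrt_pos.2 (by positivity)
  have hδ2 : δ ^ 2 = 8 * N * Real.exp K / α := Real.sq_sqrt (by positivity)
  set e : ℝ := Real.exp (-(κ * α)) with he
  have hdich : ∀ i j, 2 * N ≤ α * W i j * δ ^ 2 ∨ W i j ≤ e := by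
    intro i j
    by_cases h : G.Adj i j ∧ x i ≠ 0 ∧ x j ≠ 0
    · have hWij : W i j = ww α (x i) (x j) := by simp only [hW]; rw [if_pos h]
      rw [hWij]
      rcases hE2 x hx i j h.2.1 h.2.2 with h1 | h1
      · left
        have h2 := ww_lower (hpos i h.2.1) (hpos j h.2.2) h1
        rw [hδ2]
        have h3 : α * (Real.exp (-K) / 4) * (8 * N * Real.exp K / α) = 2 * N := by
          have : Real.exp (-K) * Real.exp K = 1 := by rw [← Real.exp_add]; simp
          field_simp
          nlinarith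
        rw [← h3]
        apply mul_le_mul_of_nonneg_right _ (by positivity)
        exact mul_le_mul_of_nonneg_left h2 hα0.le
      · right
        exact ww_upper (hpos i h.2.1) (hpos j h.2.2) h1
    · right
      have hWij : W i j = 0 := by simp only [hW]; rw [if_neg h]
      rw [hWij]
      exact (Real.exp_pos _).le
  have hmδ : m * δ ≤ 1 / 2 := by
    apply le_of_sq_le_sq _ (by norm_num)
    rw [mul_pow, hδ2]
    rw [mul_div_assoc', div_le_iff₀ hα0]
    nlinarith
  have hsmall : 16 * (m : ℝ) ^ 2 * α * e < 1 := by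
    have h1 := Real.quadratic_le_exp_of_nonneg (show 0 ≤ κ * α by positivity)
    have h2 : e = (Real.exp (κ * α))⁻¹ := by rw [he, Real.exp_neg]
    have hE := Real.exp_pos (κ * α)
    rw [h2, ← div_eq_mul_inv, div_lt_one hE]
    have h3 : 32 * (m : ℝ) ^ 2 / κ ^ 2 ≤ α - 1 := by linarith
    rw [div_le_iff₀ (by positivity)] at h3
    have h4 : 32 * (m : ℝ) ^ 2 * α ≤ (α - 1) * κ ^ 2 * α := mul_le_mul_of_nonneg_right h3 hα0.le
    have h5 : (α - 1) * κ ^ 2 * α ≤ (κ * α) ^ 2 := by nlinarith [sq_nonneg κ]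
    nlinarith [mul_pos hκ hα0]
  have heqW : ∀ z : Fin m → ℝ, (∀ i, x i = 0 → z i = 0) →
      (∀ i, x i ≠ 0 → N * (x i * z i) =
        α * ∑ j, if G.Adj i j ∧ x j ≠ 0 then ww α (x i) (x j) * (z i - z j) else 0) →
      ∀ i, N * (x i * z i) = α * ∑ j, W i j * (z i - z j) := by
    intro z hz0 hz i
    by_cases hi : x i = 0
    · have h1 : ∀ j, W i j = 0 := by
        intro j; simp only [hW]; rw [if_neg (fun h => h.2.1 hi)]
      simp [hi, h1]
    · rw [hz i hi]
      congr 1
      refine Finset.sum_congr rfl fun j _ => ?_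
      simp only [hW]
      by_cases h : G.Adj i j ∧ x j ≠ 0
      · rw [if_pos h, if_pos ⟨h.1, hi, h.2⟩]
      · rw [if_neg h, if_neg (fun h' => h ⟨h'.1, h'.2.2⟩), zero_mul]
  -- contradiction for a maximum
  have key : ∀ z : Fin m → ℝ, (∀ i, x i = 0 → z i = 0) →
      (∀ i, x i ≠ 0 → N * (x i * z i) =
        α * ∑ j, if G.Adj i j ∧ x j ≠ 0 then ww α (x i) (x j) * (z i - z j) else 0) →
      ∀ i0, 0 < z i0 → (∀ i, |z i| ≤ z i0) → False := by
    intro z hz0 hz i0 hi0 hmax
    have hxi : x i0 ≠ 0 := fun h => by rw [hz0 i0 h] at hi0; exact lt_irrefl _ hi0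
    have hxi' : 1 / (8 * N) ≤ x i0 := by
      rcases hE1 x hx i0 with h | h
      · exact absurd h hxi
      · exact h
    exact core W x z N α (z i0) δ e i0 hN hα0 hi0 hδ (Real.exp_pos _).le hx0 hx1 hxi' hsym hW0
      hmax rfl (heqW z hz0 hz) hdich hmδ hsmall
  by_contra hcon
  push Not at hcon
  obtain ⟨i1, hi1⟩ := hcon
  obtain ⟨i0, _, hi0⟩ := Finset.exists_max_image (Finset.univ : Finset (Fin m)) (fun i => |y i|)
    ⟨i1, Finset.mem_univ _⟩
  have hpos0 : 0 < |y i0| := lt_of_lt_of_le (abs_pos.2 hi1) (hi0 i1 (Finset.mem_univ _))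
  rcases le_total 0 (y i0) with h | h
  · rw [abs_of_nonneg h] at hpos0
    refine key y hy0 hyeq i0 hpos0 (fun i => ?_)
    have := hi0 i (Finset.mem_univ _)
    simp only [abs_of_nonneg h] at this
    exact this
  · rw [abs_of_nonpos h] at hpos0
    refine key (fun i => - y i) (fun i hi => by simp [hy0 i hi]) ?_ i0 hpos0 (fun i => ?_)
    · intro i hi
      have h1 := hyeq i hi
      have h2 : ∑ j, (if G.Adj i j ∧ x j ≠ 0 then ww α (x i) (x j) * (-y i - -y j) else 0) =
          - ∑ j, (if G.Adj i j ∧ x j ≠ 0 then ww α (x i) (x j) * (y i - y j) else 0) := by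
        rw [← Finset.sum_neg_distrib]
        refine Finset.sum_congr rfl fun j _ => ?_
        split_ifs
        · ring
        · simp
      rw [h2]
      linarith
    · have := hi0 i (Finset.mem_univ _)
      simp only [abs_of_nonpos h] at this
      rw [abs_neg]
      exact this

end Pool.Agent.H217R3.UrnE3
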